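import Pool.Agent.KS6_69.PL.Fin

set_option autoImplicit false

/-!
# Pseudoline realizability of incidence structures with cubic cores

The definitions used in the statement (pseudolines, arrangements, `(n_3)` configurations, minimum
degree three, cubic) are in `Pool.Agent.KS6_69.PL.Defs`, `Pool.Agent.KS6_69.PL.Cubic` and
`Pool.Agent.KS6_69.PL.Fin`.
-/

namespace Pool.Agent.Results.MP_e3e9c0_co.AllCubicCores

open Pool.Agent.KS6_69.PL

/-- (1) Let `inc` be a finite incidence structure in which two points are on at most one common
line. If every substructure in which all points are on at least three lines and all lines contain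
at least three points is cubic and has neither 7 nor 8 points, then there is a realization by an
arrangement of pseudolines. (2) If all substructures of minimum degree three are cubic, it is
enough to give up a set `D` of incidences which contains an incidence of every cubic substructure
with 7 or 8 points. (3) A combinatorial `(n_3)` configuration, connected or not, in which no seven
lines cover only seven points and no eight lines cover only eight points has a topological
realization. (4) For `n ≥ 9` every connected `(n_3)` configuration has a topological
realization. -/
theorem result :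
    (∀ (P L : Type) [Fintype P] [Fintype L] [Nonempty P] (inc : P → L → Prop), IsLinear inc →
      (∀ X Y, MinDegreeThree inc X Y → Cubic inc X Y ∧ X.card ≠ 7 ∧ X.card ≠ 8) →
      TopRealizable inc) ∧
    (∀ (P L : Type) [Fintype P] [Fintype L] [Nonempty P] (inc D : P → L → Prop), IsLinear inc →
      (∀ X Y, MinDegreeThree inc X Y → Cubic inc X Y) →
      (∀ X Y, Cubic inc X Y → X.card = 7 ∨ X.card = 8 → ∃ p ∈ X, ∃ l ∈ Y, inc p l ∧ D p l) →
      TopRealizable (fun p l => inc p l ∧ ¬ D p l)) ∧
    (∀ n : ℕ, 0 < n → ∀ (P : Type) [Fintype P] [DecidableEq P] (C : Config P n),
      (∀ Y ⊆ C.lines, Y.card = 7 ∨ Y.card = 8 → (Y.biUnion id).card ≠ Y.card) →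
      C.TopologicallyRealizable) ∧
    (∀ n : ℕ, 9 ≤ n → ∀ (P : Type) [Fintype P] [DecidableEq P] (C : Config P n),
      C.levi.Connected → C.TopologicallyRealizable) :=
  ⟨fun _ _ _ _ _ inc lin h => top_of_cubic inc lin h,
    fun _ _ _ _ _ inc D lin h hD => top_of_deletion inc D lin h hD,
    fun _ hn _ _ _ C h => config_without hn C h,
    fun _ hn _ _ _ C hC => connected_config hn C hC⟩

end Pool.Agent.Results.MP_e3e9c0_co.AllCubicCores
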